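import Mathlib
import Pool.Agent.Helper291.IPRCore

/-! Rational sequences: image partition regularity of `M(a)` for sequences of nonzero rationals
(helper339). The integer case, and the combinatorial machine, are in `Pool.Agent.Helper291.IPRCore`. -/

set_option autoImplicit false

namespace Pool.Agent.Y339.IPR

open Pool.Agent.Helper291.IPRCore

/-- the sum form of image partition regularity of `M(a)` for the rational sequence `a = b / D` -/
def QIPR {k : ℕ} (D : ℕ) (b : Fin k → ℤ) : Prop :=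
  ∀ (κ : Type) [Finite κ] (c : ℕ → κ), ∃ x : ℕ → ℕ, (∀ n, 0 < x n) ∧ ∃ j : κ, (∀ n, c (x n) = j) ∧
    ∀ ν : Fin k → ℕ, StrictMono ν → ∃ y : ℕ, 0 < y ∧ (∑ i, b i * (x (ν i) : ℤ)) = (D : ℤ) * y ∧
      c y = j

theorem unt_natAbs_le {p : ℕ} (hp : p.Prime) {z : ℤ} : (unt p z).natAbs ≤ z.natAbs := by
  have h := unt_mul hp z
  rcases eq_or_ne (unt p z) 0 with h0 | h0
  · rw [h0]; simp
  · have h1 : ((p : ℤ) ^ val p z * unt p z).natAbs = z.natAbs := by rw [h]
    rw [Int.natAbs_mul] at h1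
    rw [← h1]
    apply Nat.le_mul_of_pos_left
    rw [Int.natAbs_pow]
    exact pow_pos (by simpa using hp.pos) _

/-- the arithmetic core of the residue colouring, for a fraction `A / D` -/
theorem unit_lemma' {p : ℕ} (hp : p.Prime) {A D x y W : ℤ} {B : ℕ} (hA : A ≠ 0) (hD : D ≠ 0)
    (hB : 2 * A.natAbs + D.natAbs < B) (hx : x ≠ 0) (hy : y ≠ 0)
    (h1 : ((val p y : ℕ) : ZMod B) = ((val p x : ℕ) : ZMod B))
    (h2 : ((unt p y : ℤ) : ZMod (p ^ B)) = ((unt p x : ℤ) : ZMod (p ^ B)))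
    (h3 : D * y = (p : ℤ) ^ (val p x) * W) (h4 : (p : ℤ) ^ B ∣ W - A * unt p x) : A = D := by
  have hp0 : (p : ℤ) ≠ 0 := by exact_mod_cast hp.ne_zero
  have hux := unt_not_dvd hp hx
  have huy := unt_not_dvd hp hy
  have hpP : Prime (p : ℤ) := Nat.prime_iff_prime_int.1 hp
  set w := val p A with hw
  have hwA : w < A.natAbs := val_lt_natAbs hp hA
  have hvD : val p D < D.natAbs := val_lt_natAbs hp hD
  obtain ⟨c, hc⟩ := h4
  have hAeq : (p : ℤ) ^ w * unt p A = A := unt_mul hp A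
  have huA := unt_not_dvd hp hA
  have huD := unt_not_dvd hp hD
  set W' : ℤ := unt p A * unt p x + (p : ℤ) ^ (B - w) * c with hW'def
  have hW' : W = (p : ℤ) ^ w * W' := by
    have e : (p : ℤ) ^ B = (p : ℤ) ^ w * (p : ℤ) ^ (B - w) := by
      rw [← pow_add]; congr 1; omega
    have : W = A * unt p x + (p : ℤ) ^ B * c := by linarith
    rw [this, e, hW'def]
    nth_rewrite 1 [← hAeq]
    ring
  have hW'p : ¬ (p : ℤ) ∣ W' := by
    intro hd
    have e : (p : ℤ) ∣ (p : ℤ) ^ (B - w) * c :=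
      Dvd.dvd.mul_right (dvd_pow_self _ (by omega)) _
    have := (Int.dvd_add_left e).1 hd
    rcases hpP.dvd_or_dvd this with h | h
    · exact huA h
    · exact hux h
  have hyv := unt_eq_of hp (z := D * y) (w := W') (val p x + w) hW'p (by
    rw [h3, hW', pow_add]; ring)
  have hyv2 := unt_eq_of hp (z := D * y) (w := unt p D * unt p y) (val p D + val p y) (by
      intro h
      rcases hpP.dvd_or_dvd h with h | h
      · exact huD h
      · exact huy h) (by
      have e1 := unt_mul hp D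
      have e2 := unt_mul hp y
      nth_rewrite 1 [← e1, ← e2]
      rw [pow_add]
      ring)
  have hv : val p D + val p y = val p x + w := hyv2.1.symm.trans hyv.1
  have hu : unt p D * unt p y = W' := hyv2.2.symm.trans hyv.2
  have hvw : val p D = w := by
    have h5 : ((val p D : ℕ) : ZMod B) = ((w : ℕ) : ZMod B) := by
      have h6 := congrArg (fun n : ℕ => (n : ZMod B)) hv
      simp only [Nat.cast_add] at h6
      rw [h1, add_comm] at h6
      exact add_left_cancel h6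
    rw [ZMod.natCast_eq_natCast_iff'] at h5
    rwa [Nat.mod_eq_of_lt (by omega), Nat.mod_eq_of_lt (by omega)] at h5
  have h6 : (p : ℤ) ^ B ∣ unt p x - unt p y := by
    have h7 : ((unt p x - unt p y : ℤ) : ZMod (p ^ B)) = 0 := by
      push_cast; rw [h2]; ring
    rw [ZMod.intCast_zmod_eq_zero_iff_dvd] at h7
    exact_mod_cast h7
  have h7 : (p : ℤ) ^ (B - w) ∣ unt p x - unt p y := (pow_dvd_pow _ (Nat.sub_le _ _)).trans h6
  have h8 : (p : ℤ) ^ (B - w) ∣ (unt p D - unt p A) * unt p x := by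
    have e : (unt p D - unt p A) * unt p x = unt p D * (unt p x - unt p y) + (p : ℤ) ^ (B - w) * c := by
      rw [hW'def] at hu
      linear_combination hu
    rw [e]
    exact dvd_add (Dvd.dvd.mul_left h7 _) (dvd_mul_right _ _)
  have hcop : IsCoprime ((p : ℤ) ^ (B - w)) (unt p x) := by
    apply IsCoprime.pow_left
    exact (hpP.coprime_iff_not_dvd).2 hux
  have h10 := hcop.dvd_of_dvd_mul_right h8
  have h11 : unt p D - unt p A = 0 := by
    by_contra hne
    have h12 : p ^ (B - w) ≤ (unt p D - unt p A).natAbs := by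
      have e : ((p ^ (B - w) : ℕ) : ℤ) ∣ unt p D - unt p A := by push_cast; exact h10
      exact Nat.le_of_dvd (Int.natAbs_pos.2 hne) (Int.natCast_dvd.1 e)
    have h13 : B - w < p ^ (B - w) := Nat.lt_pow_self hp.one_lt
    have h14 := Int.natAbs_sub_le (unt p D) (unt p A)
    have h15 := unt_natAbs_le hp (z := D)
    have h16 := unt_natAbs_le hp (z := A)
    omega
  have h12 : unt p D = unt p A := by linarith
  rw [← hAeq, ← h12, ← hvw]
  exact unt_mul hp D

theorem rcol_unbounded' {k : ℕ} (b : Fin k → ℤ) (D : ℕ) (hD : 0 < D) {p : ℕ} (hp : p.Prime) {B : ℕ}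
    (hS0 : ∑ i, b i ≠ 0) (hS1 : ∑ i, b i ≠ D) (hB : 2 * (∑ i, b i).natAbs + D < B)
    (x : ℕ → ℕ) (hx : ∀ n, 0 < x n)
    (hcol : ∀ n, rcol p B (x n) = rcol p B (x 0))
    (hsum : ∀ ν : Fin k → ℕ, StrictMono ν → ∃ y : ℕ, 0 < y ∧
      (∑ i, b i * (x (ν i) : ℤ)) = (D : ℤ) * y ∧ rcol p B y = rcol p B (x 0)) :
    Filter.Tendsto (fun n => val p (x n : ℤ)) Filter.atTop Filter.atTop := by
  rw [Filter.tendsto_atTop]
  intro t
  induction t with
  | zero => simp
  | succ t ih =>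
    by_contra hcon
    have hfreq : ∃ᶠ n in Filter.atTop, val p (x n : ℤ) = t := by
      rw [Filter.not_eventually] at hcon
      apply (hcon.and_eventually ih).mono
      rintro n ⟨h1, h2⟩
      omega
    obtain ⟨φ, hφ, hφb⟩ := Filter.extraction_of_frequently_atTop hfreq
    obtain ⟨y, hy, hys, hyc⟩ := hsum (fun i => φ i) (fun i j hij => hφ hij)
    have hxz : ∀ n, (x n : ℤ) ≠ 0 := fun n => by exact_mod_cast (hx n).ne'
    have hx0 : ∀ n, rcol p B (x (φ n)) = rcol p B (x (φ 0)) := fun n => by rw [hcol, hcol (φ 0)]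
    have hdec : ∀ n, (x (φ n) : ℤ) = (p : ℤ) ^ t * unt p (x (φ n)) := by
      intro n
      have := unt_mul hp (x (φ n) : ℤ)
      rw [hφb] at this
      exact this.symm
    apply hS1
    apply unit_lemma' hp (D := (D : ℤ)) (x := (x (φ 0) : ℤ)) (y := (y : ℤ))
      (W := ∑ i : Fin k, b i * unt p (x (φ i))) (B := B)
      hS0 (by exact_mod_cast hD.ne') (by simpa using hB) (hxz _) (by exact_mod_cast hy.ne')
    · have := congrArg Prod.fst (hyc.trans (hcol (φ 0)).symm)
      exact this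
    · have := congrArg Prod.snd (hyc.trans (hcol (φ 0)).symm)
      exact this
    · rw [← hys, hφb, Finset.mul_sum]
      apply Finset.sum_congr rfl
      intro i _
      nth_rewrite 1 [hdec]
      ring
    · rw [Finset.sum_mul, ← Finset.sum_sub_distrib]
      apply Finset.dvd_sum
      intro i _
      rw [← mul_sub]
      apply Dvd.dvd.mul_left
      have h1 := congrArg Prod.snd (hx0 i)
      unfold rcol at h1
      simp only at h1
      have h2 : ((unt p (x (φ i)) - unt p (x (φ 0)) : ℤ) : ZMod (p ^ B)) = 0 := by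
        push_cast; rw [h1]; ring
      rw [ZMod.intCast_zmod_eq_zero_iff_dvd] at h2
      exact_mod_cast h2

/-- the first coefficient is one -/
theorem first_coeff' {k : ℕ} (hk : 0 < k) (b : Fin k → ℤ) (hb : ∀ i, b i ≠ 0) (D : ℕ) (hD : 0 < D)
    {p : ℕ} (hp : p.Prime) {B : ℕ} (hB : 2 * (b ⟨0, hk⟩).natAbs + D < B)
    (x : ℕ → ℕ) (hx : ∀ n, 0 < x n)
    (hsum : ∀ ν : Fin k → ℕ, StrictMono ν → ∃ y : ℕ, 0 < y ∧
      (∑ i, b i * (x (ν i) : ℤ)) = (D : ℤ) * y ∧ rcol p B y = rcol p B (x 0))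
    (htend : Filter.Tendsto (fun n => val p (x n : ℤ)) Filter.atTop Filter.atTop) :
    b ⟨0, hk⟩ = D := by
  obtain ⟨k, rfl⟩ : ∃ k', k = k' + 1 := ⟨k - 1, by omega⟩
  have hxz : ∀ n, (x n : ℤ) ≠ 0 := fun n => by exact_mod_cast (hx n).ne'
  obtain ⟨N, hN⟩ := Filter.eventually_atTop.1
    (Filter.tendsto_atTop.1 htend (val p (x 0 : ℤ) + B))
  obtain ⟨y, hy, hys, hyc⟩ := hsum (Fin.cons 0 (fun i : Fin k => N + 1 + (i : ℕ))) (by
    intro i j hij
    rcases Fin.eq_zero_or_eq_succ i with rfl | ⟨i, rfl⟩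
    · rcases Fin.eq_zero_or_eq_succ j with rfl | ⟨j, rfl⟩
      · exact absurd hij (lt_irrefl _)
      · change 0 < N + 1 + (j : ℕ)
        omega
    · rcases Fin.eq_zero_or_eq_succ j with rfl | ⟨j, rfl⟩
      · exact absurd hij (by simp)
      · change N + 1 + (i : ℕ) < N + 1 + (j : ℕ)
        have : (i : ℕ) < (j : ℕ) := by simpa using hij
        omega)
  rw [Fin.sum_univ_succ] at hys
  simp only [Fin.cons_zero, Fin.cons_succ] at hys
  set v := val p (x 0 : ℤ) with hv
  have hR : (p : ℤ) ^ (v + B) ∣ ∑ i : Fin k, b i.succ * (x (N + 1 + (i : ℕ)) : ℤ) := by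
    apply Finset.dvd_sum
    intro i _
    apply Dvd.dvd.mul_left
    rw [← le_val_iff hp (hxz _)]
    exact hN _ (by omega)
  obtain ⟨c, hc⟩ := hR
  have h0 : (⟨0, hk⟩ : Fin (k + 1)) = 0 := rfl
  rw [h0] at *
  apply unit_lemma' hp (D := (D : ℤ)) (x := (x 0 : ℤ)) (y := (y : ℤ)) (B := B)
    (W := b 0 * unt p (x 0) + (p : ℤ) ^ B * c) (hb 0) (by exact_mod_cast hD.ne')
    (by simpa using hB) (hxz _) (by exact_mod_cast hy.ne')
  · exact congrArg Prod.fst hyc
  · exact congrArg Prod.snd hyc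
  · rw [← hys, hc, ← hv]
    have := unt_mul hp (x 0 : ℤ)
    rw [← hv] at this
    nth_rewrite 1 [← this]
    rw [pow_add]
    ring
  · refine ⟨c, ?_⟩
    ring

/-- the logarithmic colouring -/
noncomputable def lcol (β : ℝ) (y : ℕ) : ZMod 4 := ((⌊2 * Real.log y / β⌋ : ℤ) : ZMod 4)

theorem lcol_ne {t s : ℝ} (hs : (1 < s ∧ s < 3) ∨ (-3 < s ∧ s < -1))
    (h : ((⌊t + s⌋ : ℤ) : ZMod 4) = ((⌊t⌋ : ℤ) : ZMod 4)) : False := by
  have h1 := (ZMod.intCast_eq_intCast_iff_dvd_sub _ _ 4).1 h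
  have ht1 := Int.floor_le t
  have ht2 := Int.lt_floor_add_one t
  rcases hs with ⟨a1, a2⟩ | ⟨a1, a2⟩
  · have b1 : ⌊t⌋ + 1 ≤ ⌊t + s⌋ := Int.le_floor.2 (by push_cast; linarith)
    have b2 : ⌊t + s⌋ < ⌊t⌋ + 4 := Int.floor_lt.2 (by push_cast; linarith)
    omega
  · have b1 : ⌊t⌋ - 3 ≤ ⌊t + s⌋ := Int.le_floor.2 (by push_cast; linarith)
    have b2 : ⌊t + s⌋ < ⌊t⌋ := Int.floor_lt.2 (by push_cast; linarith)
    omega

/-- values tend to infinity when the sum of the coefficients is not one -/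
theorem values_unbounded' {k : ℕ} (b : Fin k → ℤ) (D : ℕ) (hD : 0 < D) {B : ℕ}
    (hS1 : ∑ i, b i ≠ D) (hB : 2 * (∑ i, b i).natAbs + D < B)
    (x : ℕ → ℕ) (hx : ∀ n, 0 < x n)
    (hcol : ∀ n, rcol 3 B (x n) = rcol 3 B (x 0))
    (hsum : ∀ ν : Fin k → ℕ, StrictMono ν → ∃ y : ℕ, 0 < y ∧
      (∑ i, b i * (x (ν i) : ℤ)) = (D : ℤ) * y ∧ rcol 3 B y = rcol 3 B (x 0)) :
    Filter.Tendsto x Filter.atTop Filter.atTop := by
  by_cases hS0 : ∑ i, b i = 0
  · rw [Filter.tendsto_atTop]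
    intro t
    induction t with
    | zero => simp
    | succ t ih =>
      by_contra hcon
      have hfreq : ∃ᶠ n in Filter.atTop, x n = t := by
        rw [Filter.not_eventually] at hcon
        apply (hcon.and_eventually ih).mono
        rintro n ⟨h1, h2⟩
        omega
      obtain ⟨φ, hφ, hφb⟩ := Filter.extraction_of_frequently_atTop hfreq
      obtain ⟨y, hy, hys, hyc⟩ := hsum (fun i => φ i) (fun i j hij => hφ hij)
      simp only [hφb] at hys
      rw [← Finset.sum_mul, hS0, zero_mul] at hys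
      have h1 : (0 : ℤ) < (D : ℤ) * y := by exact_mod_cast Nat.mul_pos hD hy
      omega
  · have h := rcol_unbounded' b D hD Nat.prime_three hS0 hS1 hB x hx hcol hsum
    refine Filter.tendsto_atTop_mono (fun n => ?_) h
    have h1 := val_lt_natAbs Nat.prime_three
      (show ((x n : ℕ) : ℤ) ≠ 0 by exact_mod_cast (hx n).ne')
    rw [Int.natAbs_natCast] at h1
    exact h1.le

/-- the last coefficient is one -/
theorem last_coeff' {k : ℕ} (hk : 0 < k) (b : Fin k → ℤ) (hb : ∀ i, b i ≠ 0) (D : ℕ) (hD : 0 < D)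
    (x : ℕ → ℕ) (hx : ∀ n, 0 < x n) (htend : Filter.Tendsto x Filter.atTop Filter.atTop)
    (hcol : ∀ n, lcol |Real.log ((b ⟨k - 1, Nat.sub_lt hk one_pos⟩ : ℝ) / D)| (x n) =
      lcol |Real.log ((b ⟨k - 1, Nat.sub_lt hk one_pos⟩ : ℝ) / D)| (x 0))
    (hsum : ∀ ν : Fin k → ℕ, StrictMono ν → ∃ y : ℕ, 0 < y ∧
      (∑ i, b i * (x (ν i) : ℤ)) = (D : ℤ) * y ∧
      lcol |Real.log ((b ⟨k - 1, Nat.sub_lt hk one_pos⟩ : ℝ) / D)| y =
        lcol |Real.log ((b ⟨k - 1, Nat.sub_lt hk one_pos⟩ : ℝ) / D)| (x 0)) :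
    b ⟨k - 1, Nat.sub_lt hk one_pos⟩ = D := by
  obtain ⟨k, rfl⟩ : ∃ k', k = k' + 1 := ⟨k - 1, by omega⟩
  have hlast : (⟨k + 1 - 1, Nat.sub_lt hk one_pos⟩ : Fin (k + 1)) = Fin.last k := rfl
  rw [hlast] at *
  set A := b (Fin.last k) with hA
  set C : ℕ := ∑ i : Fin k, (b i.castSucc).natAbs * x (i : ℕ) with hC
  by_contra hAD
  have hDr : (0 : ℝ) < D := by exact_mod_cast hD
  -- the last coefficient is positive
  have main : ∀ M : ℕ, k ≤ M → ∃ y : ℕ, 0 < y ∧ ∃ R : ℤ, |R| ≤ C ∧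
      R + A * (x M : ℤ) = (D : ℤ) * y ∧
      lcol |Real.log ((A : ℝ) / D)| y = lcol |Real.log ((A : ℝ) / D)| (x 0) := by
    intro M hMk
    obtain ⟨y, hy, hys, hyc⟩ := hsum (Fin.snoc (fun i : Fin k => (i : ℕ)) M) (by
      intro i j hij
      rcases Fin.eq_castSucc_or_eq_last i with ⟨i, rfl⟩ | rfl
      · rcases Fin.eq_castSucc_or_eq_last j with ⟨j, rfl⟩ | rfl
        · rw [Fin.snoc_castSucc, Fin.snoc_castSucc]
          simpa using hij
        · rw [Fin.snoc_castSucc, Fin.snoc_last]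
          have := i.2
          omega
      · exact absurd hij (not_lt.2 (Fin.le_last _)))
    rw [Fin.sum_univ_castSucc] at hys
    simp only [Fin.snoc_castSucc, Fin.snoc_last] at hys
    refine ⟨y, hy, ∑ i : Fin k, b i.castSucc * (x (i : ℕ) : ℤ), ?_, hys, hyc⟩
    rw [hC]
    push_cast
    refine (Finset.abs_sum_le_sum_abs _ _).trans ?_
    apply Finset.sum_le_sum
    intro i _
    rw [abs_mul]
    simp
  have hApos : 0 < A := by
    by_contra h
    have hA0 : A ≠ 0 := hb _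
    have h1 : A ≤ -1 := by omega
    obtain ⟨N, hN⟩ := Filter.eventually_atTop.1 (Filter.tendsto_atTop.1 htend (2 * C + 1))
    obtain ⟨y, hy, R, hR, hys, -⟩ := main (max N k) (le_max_right _ _)
    have hX : (2 * C + 1 : ℤ) ≤ (x (max N k) : ℤ) := by exact_mod_cast hN _ (le_max_left _ _)
    have hR2 := (abs_le.1 hR).2
    have h2 : A * (x (max N k) : ℤ) ≤ -1 * (x (max N k) : ℤ) :=
      mul_le_mul_of_nonneg_right h1 (by positivity)
    have h3 : (0 : ℤ) < (D : ℤ) * y := by exact_mod_cast Nat.mul_pos hD hy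
    have h4 : (0 : ℤ) ≤ (C : ℤ) := by positivity
    omega
  have hAr : (0 : ℝ) < A := by exact_mod_cast hApos
  set α : ℝ := (A : ℝ) / D with hα
  have hα0 : 0 < α := by positivity
  have hα1 : α ≠ 1 := by
    intro h
    rw [hα, div_eq_one_iff_eq hDr.ne'] at h
    exact hAD (by exact_mod_cast h)
  set β : ℝ := |Real.log α| with hβ
  have hβ0 : 0 < β := abs_pos.2 (Real.log_ne_zero_of_pos_of_ne_one hα0 hα1)
  obtain ⟨δ, hδ, hlog⟩ := Metric.continuousAt_iff.1 (Real.continuousAt_log hα0.ne') (β / 2)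
    (by positivity)
  obtain ⟨E, hE⟩ := exists_nat_gt ((C : ℝ) / (D * δ))
  obtain ⟨N, hN⟩ := Filter.eventually_atTop.1 (Filter.tendsto_atTop.1 htend (E + 1))
  obtain ⟨y, hy, R, hR, hys, hyc⟩ := main (max N k) (le_max_right _ _)
  set M := max N k with hM
  have hXE : (E : ℝ) + 1 ≤ x M := by exact_mod_cast hN M (le_max_left _ _)
  have hE0 : (0 : ℝ) ≤ E := Nat.cast_nonneg E
  have hX0 : (0 : ℝ) < x M := by linarith
  have hyr : (R : ℝ) + A * x M = D * y := by exact_mod_cast hys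
  have hRr : |(R : ℝ)| ≤ C := by exact_mod_cast hR
  set u : ℝ := (y : ℝ) / x M with hu
  have hy0 : (0 : ℝ) < y := by exact_mod_cast hy
  have hu0 : 0 < u := by positivity
  have hua : u - α = R / (D * x M) := by
    rw [hu, hα]
    field_simp
    linarith
  have hdist : dist u α < δ := by
    rw [Real.dist_eq, hua, abs_div, abs_of_pos (show (0 : ℝ) < D * x M by positivity),
      div_lt_iff₀ (by positivity)]
    rw [div_lt_iff₀ (by positivity)] at hE
    nlinarith [mul_pos hDr hδ]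
  have h1 := hlog hdist
  rw [Real.dist_eq, abs_lt] at h1
  have hly : Real.log y = Real.log (x M) + Real.log u := by
    rw [hu, Real.log_div hy0.ne' hX0.ne']
    ring
  have h2 : 2 * Real.log y / β = 2 * Real.log (x M) / β + 2 * Real.log u / β := by
    rw [hly]; ring
  have h3 := hyc.trans (hcol M).symm
  unfold lcol at h3
  rw [h2] at h3
  refine lcol_ne ?_ h3
  rcases le_or_gt 0 (Real.log α) with hpos | hneg
  · left
    have hb1 : β = Real.log α := abs_of_nonneg hpos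
    rw [lt_div_iff₀ hβ0, div_lt_iff₀ hβ0]
    constructor <;> linarith
  · right
    have hb1 : β = -Real.log α := abs_of_neg hneg
    rw [lt_div_iff₀ hβ0, div_lt_iff₀ hβ0]
    constructor <;> linarith

variable {P : Finset ℕ} {K : ℕ}

theorem types_eq' {κ ι₁ ι₂ : Type} [Finite κ] [Finite ι₁] [Finite ι₂] (hc : Ctx P K) {k : ℕ}
    (a : Fin k → ℤ) (D : ℕ) (hD : 0 < D) (hDP : NP P (D : ℤ) = (D : ℤ).natAbs)
    (hk : 2 ≤ k) (ha0 : ∀ i, a i ≠ 0) (haP : ∀ i, NP P (a i) = (a i).natAbs)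
    (hS0 : ∑ i, a i ≠ 0) (hS1 : ∑ i, a i ≠ D) (T : ℤ → ℤ → κ) (hT : Local P T)
    (hTa : ∀ i, ∀ b z : ℤ, b ≠ 0 → z ≠ 0 → T (a i * b) (a i * z) = T b z)
    (hTD : ∀ b z : ℤ, b ≠ 0 → z ≠ 0 → T ((D : ℤ) * b) ((D : ℤ) * z) = T b z)
    (I1 : ℤ → ι₁) (I2 : ℤ → ι₂)
    (hI : ∀ i j : Fin k, ∀ b b' z z' : ℤ, b ≠ 0 → b' ≠ 0 → z ≠ 0 → z' ≠ 0 → I2 b = I2 b' →
      I1 z = I1 z' → T (a i * b) (a j * z) = T (a i * b') (a j * z'))
    (hipr : QIPR D a) :
    ∃ b z : ℤ, b ≠ 0 ∧ z ≠ 0 ∧ ∀ i j : ℕ, ∀ (hi : i + 1 < k) (hj : j + 1 < k),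
      T (a ⟨i, by omega⟩ * b) (a ⟨i + 1, hi⟩ * z) = T (a ⟨j, by omega⟩ * b) (a ⟨j + 1, hj⟩ * z) := by
  classical
  set B := 2 * (∑ i, a i).natAbs + D + 1 with hB
  have : NeZero B := ⟨by omega⟩
  have : NeZero (k - 1) := ⟨by omega⟩
  have hNZ : ∀ p : P, NeZero ((p : ℕ) ^ B) := fun p =>
    ⟨pow_ne_zero _ (hc.prime p.1 p.2).ne_zero⟩
  obtain ⟨x, hx, col, hcol, hsum⟩ := hipr
    ((κ → ZMod (k - 1)) × ι₁ × ι₂ × ((p : P) → ZMod B × ZMod ((p : ℕ) ^ B)))
    (fun y => (fun τ => ((cnt P K T τ (y : ℤ) : ℕ) : ZMod (k - 1)), I1 y, I2 (lastb P K y),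
      fun p => rcol p B y))
  have hxz : ∀ n, (x n : ℤ) ≠ 0 := fun n => by exact_mod_cast (hx n).ne'
  have hcnt : ∀ n τ, ((cnt P K T τ (x n : ℤ) : ℕ) : ZMod (k - 1)) = col.1 τ := fun n τ =>
    congrFun (congrArg Prod.fst (hcol n)) τ
  have hI1 : ∀ n, I1 (x n) = col.2.1 := fun n => congrArg (fun c => c.2.1) (hcol n)
  have hI2 : ∀ n, I2 (lastb P K (x n)) = col.2.2.1 := fun n => congrArg (fun c => c.2.2.1) (hcol n)
  have hrc : ∀ n (p : P), rcol p B (x n) = col.2.2.2 p := fun n p =>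
    congrFun (congrArg (fun c => c.2.2.2) (hcol n)) p
  have htend : ∀ p ∈ P, Filter.Tendsto (fun n => val p (x n : ℤ)) Filter.atTop Filter.atTop := by
    intro p hp
    apply rcol_unbounded' a D hD (hc.prime p hp) hS0 hS1 (B := B) (by omega) x hx
    · intro n
      rw [hrc n ⟨p, hp⟩, hrc 0 ⟨p, hp⟩]
    · intro ν hν
      obtain ⟨y, hy, hys, hyc⟩ := hsum ν hν
      refine ⟨y, hy, hys, ?_⟩
      rw [hrc 0 ⟨p, hp⟩, ← hyc]
  set A : ℕ := 1 + ∑ i, (a i).natAbs with hA
  obtain ⟨ν, hν, hfar⟩ := thinning hc A x htend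
  obtain ⟨X, hX, hXs, hXc⟩ := hsum (fun i => ν i) (fun i j hij => hν hij)
  have hDz : (D : ℤ) ≠ 0 := by exact_mod_cast hD.ne'
  have hXz : (X : ℤ) ≠ 0 := by exact_mod_cast hX.ne'
  set a' : ℕ → ℤ := fun i => if h : i < k then a ⟨i, h⟩ else 1 with ha'
  have ha'k : ∀ i (h : i < k), a' i = a ⟨i, h⟩ := fun i h => by simp [ha', h]
  have ha'0 : ∀ i, a' i ≠ 0 := by
    intro i
    by_cases h : i < k
    · rw [ha'k i h]; exact ha0 _
    · simp [ha', h]
  have ha'P : ∀ i, NP P (a' i) = (a' i).natAbs := by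
    intro i
    by_cases h : i < k
    · rw [ha'k i h]; exact haP _
    · have : a' i = 1 := by simp [ha', h]
      rw [this]
      apply NP_eq hc.prime one_ne_zero
      intro p hp hd
      simp at hd
      exact absurd hd hp.one_lt.ne'
  have ha'A : ∀ i, (a' i).natAbs ≤ A := by
    intro i
    by_cases h : i < k
    · rw [ha'k i h]
      have := Finset.single_le_sum (f := fun i => (a i).natAbs) (fun i _ => Nat.zero_le _)
        (Finset.mem_univ (⟨i, h⟩ : Fin k))
      omega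
    · have : a' i = 1 := by simp [ha', h]
      rw [this]
      simp only [Int.natAbs_one]
      omega
  have ha'T : ∀ i b z, b ≠ 0 → z ≠ 0 → T (a' i * b) (a' i * z) = T b z := by
    intro i b z hb hz
    by_cases h : i < k
    · rw [ha'k i h]; exact hTa _ b z hb hz
    · have : a' i = 1 := by simp [ha', h]
      rw [this, one_mul, one_mul]
  set y : ℕ → ℤ := fun i => a' i * x (ν i) with hy
  have hy0 : ∀ i, y i ≠ 0 := fun i => mul_ne_zero (ha'0 i) (hxz _)
  have hyfar : ∀ i, ∀ p ∈ P, K * (y i).natAbs < p ^ (val p (y (i + 1))) := by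
    intro i p hp
    have h1 := hfar i p hp
    have h2 : (y i).natAbs ≤ A * x (ν i) := by
      simp only [hy, Int.natAbs_mul, Int.natAbs_natCast]
      exact Nat.mul_le_mul_right _ (ha'A i)
    have h3 : val p (x (ν (i + 1)) : ℤ) ≤ val p (y (i + 1)) := by
      simp only [hy]
      rw [val_mul (hc.prime p hp) (ha'0 _) (hxz _)]
      omega
    calc K * (y i).natAbs ≤ K * (A * x (ν i)) := Nat.mul_le_mul_left _ h2
      _ < p ^ (val p (x (ν (i + 1)) : ℤ)) := h1
      _ ≤ _ := Nat.pow_le_pow_right (hc.prime p hp).pos h3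
  have hlx : ∀ i, ∃ r, IsLast P K (x (ν i) : ℤ) r ∧ lastb P K (x (ν i)) = x (ν i) - r :=
    fun i => lastb_spec hc (hxz _)
  choose lx hlx1 hlx2 using hlx
  have hyl : ∀ i, IsLast P K (y i) (a' i * lx i) := fun i =>
    last_scale hc (ha'0 i) (ha'P i) (hxz _) (hlx1 i)
  have hylb : ∀ i, y i - a' i * lx i = a' i * lastb P K (x (ν i)) := by
    intro i
    rw [hlx2 i]
    simp only [hy]
    ring
  have hXy : (D : ℤ) * (X : ℤ) = ∑ j ∈ Finset.range (k - 1 + 1), y (0 + j) := by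
    rw [← hXs, show k - 1 + 1 = k by omega, Finset.sum_range]
    apply Finset.sum_congr rfl
    intro i _
    simp only [hy, zero_add, ha'k i i.2]
  -- type of the j-th junction
  have hjun : ∀ j (hj : j + 1 < k), T (y j - a' j * lx j) (y (j + 1)) =
      T (a ⟨j, by omega⟩ * lastb P K (x (ν 0))) (a ⟨j + 1, hj⟩ * (x (ν 0) : ℤ)) := by
    intro j hj
    rw [hylb j]
    simp only [hy]
    rw [ha'k j (by omega), ha'k (j + 1) hj]
    apply hI _ _ _ _ _ _ (lastb_ne hc (hxz _)) (lastb_ne hc (hxz _)) (hxz _) (hxz _)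
    · rw [hI2, hI2]
    · rw [hI1, hI1]
  set τ := T (y 0 - a' 0 * lx 0) (y (0 + 1)) with hτ
  have hmain := (cnt_sum hc T hT y (fun i => a' i * lx i) hy0 hyfar hyl τ (k - 1) 0).2.2.2
  rw [← hXy, cnt_scale hc hDz hDP hXz T hTD τ] at hmain
  set n := ∑ j ∈ Finset.range (k - 1),
    (if T (y (0 + j) - a' (0 + j) * lx (0 + j)) (y (0 + j + 1)) = τ then 1 else 0) with hn
  have hscale : ∀ j, cnt P K T τ (y (0 + j)) = cnt P K T τ (x (ν (0 + j)) : ℤ) := fun j =>
    cnt_scale hc (ha'0 _) (ha'P _) (hxz _) T (ha'T _) τ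
  have hmod : ((n : ℕ) : ZMod (k - 1)) = 0 := by
    have h1 := congrArg (fun m : ℕ => (m : ZMod (k - 1))) hmain
    simp only [Nat.cast_add, Nat.cast_sum, hscale] at h1
    have h2 : ((cnt P K T τ (X : ℤ) : ℕ) : ZMod (k - 1)) = col.1 τ :=
      congrFun (congrArg Prod.fst hXc) τ
    rw [h2] at h1
    simp only [hcnt] at h1
    rw [Finset.sum_const, Finset.card_range, nsmul_eq_mul] at h1
    push_cast at h1
    have h3 : (((k - 1 : ℕ) : ZMod (k - 1))) = 0 := ZMod.natCast_self _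
    rw [h3, zero_add, one_mul] at h1
    have h4 : col.1 τ + 0 = col.1 τ + ((n : ℕ) : ZMod (k - 1)) := by
      rw [add_zero]; exact h1
    exact (add_left_cancel h4).symm
  rw [ZMod.natCast_eq_zero_iff] at hmod
  have hn1 : 1 ≤ n := by
    have h0 : 0 ∈ Finset.range (k - 1) := by simp; omega
    have := Finset.single_le_sum (f := fun j =>
      (if T (y (0 + j) - a' (0 + j) * lx (0 + j)) (y (0 + j + 1)) = τ then 1 else 0))
      (fun j _ => Nat.zero_le _) h0
    simp only [add_zero] at this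
    rw [← hτ, if_pos rfl] at this
    exact this
  have hn2 : k - 1 ≤ n := Nat.le_of_dvd hn1 hmod
  have hall : ∀ j ∈ Finset.range (k - 1), T (y (0 + j) - a' (0 + j) * lx (0 + j)) (y (0 + j + 1)) = τ := by
    by_contra hcon
    push Not at hcon
    obtain ⟨j, hj, hne⟩ := hcon
    have : n < k - 1 := by
      calc n < ∑ _j ∈ Finset.range (k - 1), 1 := by
            rw [hn]
            apply Finset.sum_lt_sum
            · intro i _
              split_ifs <;> simp
            · exact ⟨j, hj, by rw [if_neg hne]; exact one_pos⟩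
        _ = k - 1 := by simp
    omega
  refine ⟨lastb P K (x (ν 0)), x (ν 0), lastb_ne hc (hxz _), hxz _, ?_⟩
  intro i j hi hj
  rw [← hjun i hi, ← hjun j hj]
  have h1 := hall i (by simp; omega)
  have h2 := hall j (by simp; omega)
  simp only [zero_add] at h1 h2
  rw [h1, h2]

theorem all_units' (hc : Ctx P K) {k : ℕ}
    (a : Fin k → ℤ) (D : ℕ) (hD : 0 < D) (hDP : NP P (D : ℤ) = (D : ℤ).natAbs)
    (hk : 2 ≤ k) (ha0 : ∀ i, a i ≠ 0) (haP : ∀ i, NP P (a i) = (a i).natAbs)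
    (hS0 : ∑ i, a i ≠ 0) (hS1 : ∑ i, a i ≠ D) (hipr : QIPR D a)
    (hfirst : a ⟨0, by omega⟩ = D) (hlast : a ⟨k - 1, by omega⟩ = D) :
    ∀ i, (a i).natAbs = D := by
  have hDz : (D : ℤ) ≠ 0 := by exact_mod_cast hD.ne'
  set A := ∑ i, (a i).natAbs with hA
  set M := 2 * A + 1 with hM
  have : NeZero M := ⟨by omega⟩
  obtain ⟨b, z, hb, hz, h⟩ := types_eq' hc a D hD hDP hk ha0 haP hS0 hS1
    (T := fun b z => fun p : P => (((val p z : ℕ) : ZMod M) - ((val p b : ℕ) : ZMod M)))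
    (by
      intro b z w hz hw hlt
      funext p
      beta_reduce
      rw [(val_add (hc.prime p.1 p.2) hz hw (hlt p.1 p.2)).2])
    (by
      intro i b z hb hz
      funext p
      rw [val_mul (hc.prime p.1 p.2) (ha0 i) hz, val_mul (hc.prime p.1 p.2) (ha0 i) hb]
      push_cast
      ring)
    (by
      intro b z hb hz
      funext p
      rw [val_mul (hc.prime p.1 p.2) hDz hz, val_mul (hc.prime p.1 p.2) hDz hb]
      push_cast
      ring)
    (fun z => fun p : P => ((val p z : ℕ) : ZMod M)) (fun b => fun p : P => ((val p b : ℕ) : ZMod M))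
    (by
      intro i j b b' z z' hb hb' hz hz' h1 h2
      funext p
      have h1' := congrFun h1 p
      have h2' := congrFun h2 p
      beta_reduce at h1' h2' ⊢
      rw [val_mul (hc.prime p.1 p.2) (ha0 i) hb, val_mul (hc.prime p.1 p.2) (ha0 j) hz,
        val_mul (hc.prime p.1 p.2) (ha0 i) hb', val_mul (hc.prime p.1 p.2) (ha0 j) hz']
      push_cast
      rw [h1', h2'])
    hipr
  have hval : ∀ p ∈ P, ∀ j (hj : j < k), val p (a ⟨j, hj⟩) = val p (D : ℤ) := by
    intro p hp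
    have hbound : ∀ i, val p (a i) ≤ A := by
      intro i
      have h1 := val_lt_natAbs (hc.prime p hp) (ha0 i)
      have h2 := Finset.single_le_sum (f := fun i => (a i).natAbs) (fun i _ => Nat.zero_le _)
        (Finset.mem_univ i)
      omega
    have hDD : ∀ i j, ∀ (hi : i + 1 < k) (hj : j + 1 < k),
        ((val p (a ⟨i + 1, hi⟩) : ℤ) - val p (a ⟨i, by omega⟩)) =
        ((val p (a ⟨j + 1, hj⟩) : ℤ) - val p (a ⟨j, by omega⟩)) := by
      intro i j hi hj
      have h1 := congrFun (h i j hi hj) ⟨p, hp⟩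
      simp only at h1
      rw [val_mul (hc.prime p hp) (ha0 _) hz, val_mul (hc.prime p hp) (ha0 _) hb,
        val_mul (hc.prime p hp) (ha0 _) hz, val_mul (hc.prime p hp) (ha0 _) hb] at h1
      push_cast at h1
      apply eq_of_modEq_small (M := M)
      · push_cast
        linear_combination h1
      · have b1 := hbound ⟨i + 1, hi⟩
        have b2 := hbound ⟨i, by omega⟩
        have b3 := hbound ⟨j + 1, hj⟩
        have b4 := hbound ⟨j, by omega⟩
        omega
    set d : ℤ := (val p (a ⟨0 + 1, by omega⟩) : ℤ) - val p (a ⟨0, by omega⟩) with hd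
    have hlin : ∀ j (hj : j < k), (val p (a ⟨j, hj⟩) : ℤ) = val p (D : ℤ) + j * d := by
      intro j
      induction j with
      | zero =>
        intro _
        rw [hfirst]
        simp
      | succ j ih =>
        intro hj
        have h1 := hDD j 0 hj (by omega)
        have h2 := ih (by omega)
        rw [← hd] at h1
        push_cast
        linarith
    have hd0 : d = 0 := by
      have h1 := hlin (k - 1) (by omega)
      rw [hlast] at h1
      have h2 : ((k - 1 : ℕ) : ℤ) * d = 0 := by linarith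
      rcases mul_eq_zero.1 h2 with h3 | h3
      · exfalso
        have : k - 1 = 0 := by exact_mod_cast h3
        omega
      · exact h3
    intro j hj
    have h1 := hlin j hj
    rw [hd0, mul_zero, add_zero] at h1
    exact_mod_cast h1
  intro i
  rw [← haP i]
  have h1 : NP P (a i) = NP P (D : ℤ) := by
    unfold NP
    apply Finset.prod_congr rfl
    intro p hp
    rw [hval p hp i.1 i.2]
  rw [h1, hDP, Int.natAbs_natCast]

theorem necessity' {k : ℕ} (b : Fin k → ℤ) (hb : ∀ i, b i ≠ 0) (D : ℕ) (hD : 0 < D)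
    (hipr : QIPR D b) :
    ∑ i, b i = D ∨ ∃ h : 0 < k, b ⟨k - 1, Nat.sub_lt h one_pos⟩ = D ∧
      (∑ i, b i = 0 ∨ ∀ i, b i = D) := by
  by_cases hS1 : ∑ i, b i = D
  · exact Or.inl hS1
  right
  have hk : 0 < k := by
    rcases Nat.eq_zero_or_pos k with rfl | h
    · exfalso
      obtain ⟨x, hx, j, hj, hs⟩ := hipr Unit (fun _ => ())
      obtain ⟨y, hy, hys, _⟩ := hs (fun i => i.elim0) (fun i => i.elim0)
      have h1 : (0 : ℤ) < (D : ℤ) * y := by exact_mod_cast Nat.mul_pos hD hy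
      simp only [Finset.univ_eq_empty, Finset.sum_empty] at hys
      omega
    · exact h
  refine ⟨hk, ?_⟩
  set B := 2 * (∑ i, b i).natAbs + D + 2 * (b ⟨0, hk⟩).natAbs + 1 with hB
  have : NeZero B := ⟨by omega⟩
  have : NeZero (3 ^ B) := ⟨pow_ne_zero _ (by norm_num)⟩
  have hlast : b ⟨k - 1, Nat.sub_lt hk one_pos⟩ = D := by
    obtain ⟨x, hx, col, hcol, hsum⟩ := hipr ((ZMod B × ZMod (3 ^ B)) × ZMod 4) (fun y =>
      (rcol 3 B y, lcol |Real.log ((b ⟨k - 1, Nat.sub_lt hk one_pos⟩ : ℝ) / D)| y))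
    have ht := values_unbounded' b D hD (B := B) hS1 (by omega) x hx
      (fun n => (congrArg Prod.fst (hcol n)).trans (congrArg Prod.fst (hcol 0)).symm)
      (by
        intro ν hν
        obtain ⟨y, hy, hys, hyc⟩ := hsum ν hν
        exact ⟨y, hy, hys, (congrArg Prod.fst hyc).trans (congrArg Prod.fst (hcol 0)).symm⟩)
    exact last_coeff' hk b hb D hD x hx ht
      (fun n => (congrArg Prod.snd (hcol n)).trans (congrArg Prod.snd (hcol 0)).symm)
      (by
        intro ν hν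
        obtain ⟨y, hy, hys, hyc⟩ := hsum ν hν
        exact ⟨y, hy, hys, (congrArg Prod.snd hyc).trans (congrArg Prod.snd (hcol 0)).symm⟩)
  refine ⟨hlast, ?_⟩
  by_cases hS0 : ∑ i, b i = 0
  · exact Or.inl hS0
  right
  have hk2 : 2 ≤ k := by
    by_contra hcon
    have hk1 : k = 1 := by omega
    subst hk1
    apply hS1
    rw [Fin.sum_univ_one]
    exact hlast
  have hfirst : b ⟨0, hk⟩ = D := by
    obtain ⟨x, hx, col, hcol, hsum⟩ := hipr (ZMod B × ZMod (3 ^ B)) (rcol 3 B)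
    have hcol' : ∀ n, rcol 3 B (x n) = rcol 3 B (x 0) := fun n => (hcol n).trans (hcol 0).symm
    have hsum' : ∀ ν : Fin k → ℕ, StrictMono ν → ∃ y : ℕ, 0 < y ∧
      (∑ i, b i * (x (ν i) : ℤ)) = (D : ℤ) * y ∧ rcol 3 B y = rcol 3 B (x 0) := by
      intro ν hν
      obtain ⟨y, hy, hys, hyc⟩ := hsum ν hν
      exact ⟨y, hy, hys, hyc.trans (hcol 0).symm⟩
    have ht := rcol_unbounded' b D hD Nat.prime_three hS0 hS1 (B := B) (by omega) x hx hcol' hsum'
    exact first_coeff' hk b hb D hD Nat.prime_three (B := B) (by omega) x hx hsum' ht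
  -- the set of primes
  set P : Finset ℕ := insert 3 (((∏ i, (b i).natAbs) * D).primeFactors) with hP
  obtain ⟨K, hK1, hK2⟩ := Nat.exists_infinite_primes (P.sup id + 3)
  have hc : Ctx P K := by
    refine ⟨?_, ⟨3, by simp [hP]⟩, hK2, ?_, by omega⟩
    · intro p hp
      rw [hP, Finset.mem_insert] at hp
      rcases hp with rfl | hp
      · exact Nat.prime_three
      · exact Nat.prime_of_mem_primeFactors hp
    · intro hKP
      have : K ≤ P.sup id := Finset.le_sup (f := id) hKP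
      omega
  have hprod : (∏ i, (b i).natAbs) ≠ 0 := by
    rw [Finset.prod_ne_zero_iff]
    intro j _
    exact Int.natAbs_ne_zero.2 (hb j)
  have hbP : ∀ i, NP P (b i) = (b i).natAbs := by
    intro i
    apply NP_eq hc.prime (hb i)
    intro p hp hd
    rw [hP, Finset.mem_insert]
    right
    rw [Nat.mem_primeFactors]
    exact ⟨hp, (hd.trans (Finset.dvd_prod_of_mem (fun i => (b i).natAbs) (Finset.mem_univ i))).trans
      (dvd_mul_right _ _),
      mul_ne_zero hprod hD.ne'⟩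
  have hDP : NP P (D : ℤ) = (D : ℤ).natAbs := by
    apply NP_eq hc.prime (by exact_mod_cast hD.ne')
    intro p hp hd
    rw [Int.natAbs_natCast] at hd
    rw [hP, Finset.mem_insert]
    right
    rw [Nat.mem_primeFactors]
    exact ⟨hp, hd.trans (dvd_mul_left _ _), mul_ne_zero hprod hD.ne'⟩
  have hunits := all_units' hc b D hD hDP hk2 hb hbP hS0 hS1 hipr hfirst hlast
  -- the quotients are `1` and `-1`
  have hDz : (D : ℤ) ≠ 0 := by exact_mod_cast hD.ne'
  have hdvd : ∀ i, ∃ e : ℤ, b i = D * e := by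
    intro i
    have h1 : (D : ℤ) ∣ b i := by
      rw [Int.natCast_dvd, hunits i]
    exact h1
  choose e he using hdvd
  have hsumip : SumIPR e := by
    intro κ _ c
    obtain ⟨x, hx, j, hj, hs⟩ := hipr κ c
    refine ⟨x, hx, j, hj, ?_⟩
    intro ν hν
    obtain ⟨y, hy, hys, hyc⟩ := hs ν hν
    refine ⟨y, hy, ?_, hyc⟩
    apply mul_left_cancel₀ hDz
    rw [← hys, Finset.mul_sum]
    apply Finset.sum_congr rfl
    intro i _
    rw [he i]
    ring
  have hsume : ∑ i, b i = D * ∑ i, e i := by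
    rw [Finset.mul_sum]
    exact Finset.sum_congr rfl fun i _ => he i
  have he0 : ∀ i, e i ≠ 0 := by
    intro i h
    apply hb i
    rw [he i, h, mul_zero]
  rcases necessity e he0 hsumip with h | ⟨_, _, h | h⟩
  · exact absurd (by rw [hsume, h, mul_one]) hS1
  · exact absurd (by rw [hsume, h, mul_zero]) hS0
  · intro i
    rw [he i, h i, mul_one]

/-- sufficiency, zero sum case -/
theorem suff_zero' {k : ℕ} (a : Fin k → ℤ) (D0 : ℕ) (hD0 : 0 < D0) (hk : 0 < k)
    (hS : ∑ i, a i = 0) (hlast : a ⟨k - 1, Nat.sub_lt hk one_pos⟩ = D0) : QIPR D0 a := by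
  classical
  intro κ _ c
  obtain ⟨k, rfl⟩ : ∃ k', k = k' + 1 := ⟨k - 1, by omega⟩
  have hlast' : a (Fin.last k) = D0 := hlast
  have hD0z : (1 : ℤ) ≤ D0 := by exact_mod_cast hD0
  set D : ℕ := ∑ i, (a i).natAbs with hD
  set B : ℕ := D + 1 with hB
  set V : (Fin (k + 1) → ℕ) → ℤ := fun ν => ∑ i, a i * (B : ℤ) ^ (ν i) with hV
  have hVsplit : ∀ ν, V ν = (∑ i : Fin k, a i.castSucc * (B : ℤ) ^ (ν i.castSucc))
      + D0 * (B : ℤ) ^ (ν (Fin.last k)) := by
    intro ν
    simp only [hV]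
    rw [Fin.sum_univ_castSucc, hlast']
  have hVpos : ∀ ν : Fin (k + 1) → ℕ, StrictMono ν → 0 < V ν := by
    intro ν hν
    rw [hVsplit]
    set N := ν (Fin.last k) with hN
    set R := ∑ i : Fin k, a i.castSucc * (B : ℤ) ^ (ν i.castSucc) with hR
    have hBpos : (0 : ℤ) < B := by rw [hB]; positivity
    have h1 : (B : ℤ) * |R| ≤ D * (B : ℤ) ^ N := by
      have h2 : |R| ≤ ∑ i : Fin k, |a i.castSucc| * (B : ℤ) ^ (ν i.castSucc) := by
        rw [hR]
        refine (Finset.abs_sum_le_sum_abs _ _).trans ?_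
        apply Finset.sum_le_sum
        intro i _
        rw [abs_mul, abs_of_pos (pow_pos hBpos _)]
      have h3 : (B : ℤ) * (∑ i : Fin k, |a i.castSucc| * (B : ℤ) ^ (ν i.castSucc)) ≤
          (∑ i : Fin k, |a i.castSucc|) * (B : ℤ) ^ N := by
        rw [Finset.mul_sum, Finset.sum_mul]
        apply Finset.sum_le_sum
        intro i _
        have h4 : ν i.castSucc + 1 ≤ N := hν (Fin.castSucc_lt_last i)
        calc (B : ℤ) * (|a i.castSucc| * (B : ℤ) ^ (ν i.castSucc))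
            = |a i.castSucc| * (B : ℤ) ^ (ν i.castSucc + 1) := by rw [pow_succ]; ring
          _ ≤ |a i.castSucc| * (B : ℤ) ^ N := by
              apply mul_le_mul_of_nonneg_left _ (abs_nonneg _)
              exact pow_le_pow_right₀ (by rw [hB]; push_cast; omega) h4
      have h5 : (∑ i : Fin k, |a i.castSucc|) ≤ (D : ℤ) := by
        rw [hD, Fin.sum_univ_castSucc]
        push_cast
        have := abs_nonneg (a (Fin.last k))
        linarith
      calc (B : ℤ) * |R| ≤ (B : ℤ) * (∑ i : Fin k, |a i.castSucc| * (B : ℤ) ^ (ν i.castSucc)) :=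
            mul_le_mul_of_nonneg_left h2 hBpos.le
        _ ≤ (∑ i : Fin k, |a i.castSucc|) * (B : ℤ) ^ N := h3
        _ ≤ D * (B : ℤ) ^ N := mul_le_mul_of_nonneg_right h5 (pow_pos hBpos _).le
    have h6 : |R| < (B : ℤ) ^ N := by
      have h7 : (B : ℤ) * |R| < (B : ℤ) * (B : ℤ) ^ N := by
        have h8 : (D : ℤ) * (B : ℤ) ^ N < (B : ℤ) * (B : ℤ) ^ N := by
          apply mul_lt_mul_of_pos_right _ (pow_pos hBpos _)
          rw [hB]; push_cast; omega
        linarith
      exact lt_of_mul_lt_mul_left h7 hBpos.le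
    have h7 := (abs_lt.1 h6).1
    have h8 : 1 * (B : ℤ) ^ N ≤ D0 * (B : ℤ) ^ N := mul_le_mul_of_nonneg_right hD0z (pow_pos hBpos _).le
    linarith
  set f : Finset ℕ → κ := fun s =>
    if h : s.card = k + 1 then c (V (s.orderEmbOfFin h)).toNat else c 0 with hf
  obtain ⟨φ, hφ, col, hcol⟩ := inf_ramsey (k + 1) f
  have hcolV : ∀ ν : Fin (k + 1) → ℕ, StrictMono ν → c (V (fun i => φ (ν i))).toNat = col := by
    intro ν hν
    set J : Finset ℕ := Finset.univ.image ν with hJ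
    have hJc : J.card = k + 1 := by
      rw [hJ, Finset.card_image_of_injective _ hν.injective]; simp
    have h1 := hcol J hJc
    have hcard : (J.image φ).card = k + 1 := by
      rw [Finset.card_image_of_injective _ hφ.injective, hJc]
    simp only [hf] at h1
    rw [dif_pos hcard] at h1
    have h2 : (fun i => φ (ν i)) = (J.image φ).orderEmbOfFin hcard := by
      apply Finset.orderEmbOfFin_unique hcard
      · intro i
        rw [Finset.mem_image]
        exact ⟨ν i, by rw [hJ, Finset.mem_image]; exact ⟨i, Finset.mem_univ _, rfl⟩, rfl⟩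
      · intro i j hij
        exact hφ (hν hij)
    rw [h2]
    exact h1
  set μ : ℕ → Fin (k + 1) → ℕ := fun n => Fin.snoc (fun i : Fin k => (i : ℕ)) (k + n) with hμ
  have hμmono : ∀ n, StrictMono (μ n) := by
    intro n i j hij
    rcases Fin.eq_castSucc_or_eq_last i with ⟨i, rfl⟩ | rfl
    · rcases Fin.eq_castSucc_or_eq_last j with ⟨j, rfl⟩ | rfl
      · simp only [hμ]
        rw [Fin.snoc_castSucc, Fin.snoc_castSucc]
        simpa using hij
      · simp only [hμ]
        rw [Fin.snoc_castSucc, Fin.snoc_last]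
        have := i.2
        omega
    · exact absurd hij (not_lt.2 (Fin.le_last _))
  have hφμmono : ∀ n, StrictMono (fun i => φ (μ n i)) := fun n i j hij => hφ (hμmono n hij)
  set C : ℤ := ∑ i : Fin k, a i.castSucc * (B : ℤ) ^ (φ (i : ℕ)) with hC
  have hVμ : ∀ n, V (fun i => φ (μ n i)) = C + D0 * (B : ℤ) ^ (φ (k + n)) := by
    intro n
    rw [hVsplit]
    simp only [hμ, Fin.snoc_castSucc, Fin.snoc_last]
    rfl
  refine ⟨fun n => (V (fun i => φ (μ n i))).toNat, ?_, col, ?_, ?_⟩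
  · intro n
    have := hVpos _ (hφμmono n)
    simp only
    omega
  · intro n
    exact hcolV _ (hμmono n)
  · intro ν hν
    have hν' : StrictMono (fun i => k + ν i) := fun i j hij => by
      have := hν hij
      simp only
      omega
    have hpos := hVpos (fun i => φ (k + ν i)) (fun i j hij => hφ (hν' hij))
    refine ⟨(V (fun i => φ (k + ν i))).toNat, by omega, ?_, hcolV _ hν'⟩
    have h1 : ∀ n, (((V (fun i => φ (μ n i))).toNat : ℕ) : ℤ) = C + D0 * (B : ℤ) ^ (φ (k + n)) := by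
      intro n
      rw [Int.toNat_of_nonneg (hVpos _ (hφμmono n)).le, hVμ]
    rw [Int.toNat_of_nonneg hpos.le]
    simp only [h1]
    calc ∑ i, a i * (C + D0 * (B : ℤ) ^ (φ (k + ν i)))
        = (∑ i, a i) * C + D0 * ∑ i, a i * (B : ℤ) ^ (φ (k + ν i)) := by
          rw [Finset.sum_mul, Finset.mul_sum, ← Finset.sum_add_distrib]
          apply Finset.sum_congr rfl
          intro i _
          ring
      _ = D0 * V (fun i => φ (k + ν i)) := by rw [hS, zero_mul, zero_add]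

theorem suff_ones' {k : ℕ} (a : Fin k → ℤ) (D : ℕ) (hk : 0 < k) (h1 : ∀ i, a i = D) :
    QIPR D a := by
  intro κ _ c
  obtain ⟨x, hx, j, hj, hs⟩ := suff_ones (fun _ : Fin k => (1 : ℤ)) hk (fun _ => rfl) κ c
  refine ⟨x, hx, j, hj, ?_⟩
  intro ν hν
  obtain ⟨y, hy, hys, hyc⟩ := hs ν hν
  refine ⟨y, hy, ?_, hyc⟩
  rw [← hys, Finset.mul_sum]
  apply Finset.sum_congr rfl
  intro i _
  rw [h1 i]
  ring

theorem suff_one' {k : ℕ} (a : Fin k → ℤ) (D : ℕ) (h1 : ∑ i, a i = D) : QIPR D a := by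
  intro κ _ c
  refine ⟨fun _ => 1, fun _ => one_pos, c 1, fun _ => rfl, ?_⟩
  intro ν _
  exact ⟨1, one_pos, by simpa using h1, rfl⟩

/-- the characterization, for the sequence `b / D` -/
theorem char_frac {k : ℕ} (b : Fin k → ℤ) (hb : ∀ i, b i ≠ 0) (D : ℕ) (hD : 0 < D) :
    QIPR D b ↔ (∑ i, b i = D ∨ ∃ h : 0 < k, b ⟨k - 1, Nat.sub_lt h one_pos⟩ = D ∧
      (∑ i, b i = 0 ∨ ∀ i, b i = D)) := by
  constructor
  · exact necessity' b hb D hD
  · rintro (h | ⟨hk, hlast, h | h⟩)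
    · exact suff_one' b D h
    · exact suff_zero' b D hD hk h hlast
    · exact suff_ones' b D hk h

end Pool.Agent.Y339.IPR
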