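import Mathlib
import Pool.Agent.Y339.IPR.Core

/-! Real sequences: image partition regularity of `M(a)` (helper339). -/

set_option autoImplicit false

namespace Pool.Agent.Y339.IPR

open Pool.Agent.Helper291.IPRCore

/-- the sum form of image partition regularity of `M(a)` for a real sequence -/
def RIPR {k : ℕ} (a : Fin k → ℝ) : Prop :=
  ∀ (κ : Type) [Finite κ] (c : ℕ → κ), ∃ x : ℕ → ℕ, (∀ n, 0 < x n) ∧ ∃ j : κ, (∀ n, c (x n) = j) ∧
    ∀ ν : Fin k → ℕ, StrictMono ν → ∃ y : ℕ, 0 < y ∧ (∑ i, a i * (x (ν i) : ℝ)) = y ∧ c y = j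

theorem ripr_iff_qipr {k : ℕ} (a : Fin k → ℝ) (D : ℕ) (hD : 0 < D) (b : Fin k → ℤ)
    (hab : ∀ i, (D : ℝ) * a i = b i) : RIPR a ↔ QIPR D b := by
  have hDr : (D : ℝ) ≠ 0 := by exact_mod_cast hD.ne'
  have key : ∀ (z : Fin k → ℕ) (y : ℕ), (∑ i, a i * (z i : ℝ)) = y ↔
      (∑ i, b i * (z i : ℤ)) = (D : ℤ) * y := by
    intro z y
    have h1 : ((∑ i, b i * (z i : ℤ) : ℤ) : ℝ) = D * ∑ i, a i * (z i : ℝ) := by
      push_cast
      rw [Finset.mul_sum]
      apply Finset.sum_congr rfl
      intro i _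
      rw [← hab i]
      ring
    constructor
    · intro h
      rw [h] at h1
      exact_mod_cast h1
    · intro h
      rw [h] at h1
      push_cast at h1
      exact (mul_left_cancel₀ hDr h1).symm
  constructor
  · intro h κ _ c
    obtain ⟨x, hx, j, hj, hs⟩ := h κ c
    refine ⟨x, hx, j, hj, fun ν hν => ?_⟩
    obtain ⟨y, hy, hys, hyc⟩ := hs ν hν
    exact ⟨y, hy, (key _ _).1 hys, hyc⟩
  · intro h κ _ c
    obtain ⟨x, hx, j, hj, hs⟩ := h κ c
    refine ⟨x, hx, j, hj, fun ν hν => ?_⟩
    obtain ⟨y, hy, hys, hyc⟩ := hs ν hν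
    exact ⟨y, hy, (key _ _).2 hys, hyc⟩

/-- a fraction different from one moves the colour -/
theorem rcol_move {B D : ℕ} {S : ℤ} (hD : 0 < D) (hS : S ≠ 0) (hSD : S ≠ D)
    (hB : 2 * S.natAbs + D < B) {x y : ℕ} (hx : 0 < x) (hy : 0 < y) (h : S * x = (D : ℤ) * y)
    (hc : rcol 3 B y = rcol 3 B x) : False := by
  apply hSD
  have hxz : (x : ℤ) ≠ 0 := by exact_mod_cast hx.ne'
  apply unit_lemma' Nat.prime_three (D := (D : ℤ)) (x := (x : ℤ)) (y := (y : ℤ)) (B := B)
    (W := S * unt 3 x) hS (by exact_mod_cast hD.ne') (by simpa using hB) hxz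
    (by exact_mod_cast hy.ne') (congrArg Prod.fst hc) (congrArg Prod.snd hc)
  · rw [← h]
    have := unt_mul Nat.prime_three (x : ℤ)
    nth_rewrite 1 [← this]
    ring
  · rw [sub_self]
    exact dvd_zero _

/-- if the sum of the coefficients is not one, the coefficients are rational -/
theorem rational_of {k : ℕ} (a : Fin k → ℝ) (h : RIPR a) (hS : ∑ i, a i ≠ 1) :
    ∀ i, ∃ q : ℚ, a i = q := by
  -- a colouring for which no solution is eventually constant
  have h1 : ∃ x : ℕ → ℕ, (∀ n, 0 < x n) ∧ (∀ N, ∃ n ≥ N, x n ≠ x N) ∧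
      ∀ ν : Fin k → ℕ, StrictMono ν → ∃ y : ℕ, (∑ i, a i * (x (ν i) : ℝ)) = y := by
    -- the value at an eventually constant sequence
    have hev : ∀ x : ℕ → ℕ, ∀ N, (∀ n ≥ N, x n = x N) →
        ∑ i : Fin k, a i * (x (N + i) : ℝ) = (∑ i, a i) * x N := by
      intro x N hN
      rw [Finset.sum_mul]
      apply Finset.sum_congr rfl
      intro i _
      rw [hN _ (Nat.le_add_right _ _)]
    by_cases hrat : ∃ q : ℚ, 0 < q ∧ ∑ i, a i = q
    · obtain ⟨q, hq0, hq⟩ := hrat
      set B := 2 * q.num.natAbs + q.den + 1 with hB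
      have : NeZero B := ⟨by omega⟩
      have : NeZero (3 ^ B) := ⟨pow_ne_zero _ (by norm_num)⟩
      obtain ⟨x, hx, j, hj, hs⟩ := h (ZMod B × ZMod (3 ^ B)) (rcol 3 B)
      refine ⟨x, hx, ?_, fun ν hν => ?_⟩
      · intro N
        by_contra hcon
        push Not at hcon
        obtain ⟨y, hy, hys, hyc⟩ := hs (fun i => N + i) (fun i j hij => by
          have : (i : ℕ) < j := hij
          simp only
          omega)
        rw [hev x N hcon, hq] at hys
        have hden : (q.den : ℝ) ≠ 0 := by exact_mod_cast q.den_pos.ne'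
        have hqr : (q : ℝ) = (q.num : ℝ) / q.den := by exact_mod_cast (Rat.num_div_den q).symm
        have h2 : q.num * (x N : ℤ) = (q.den : ℤ) * y := by
          have h3 : (q.num : ℝ) * x N = q.den * y := by
            rw [← hys, hqr]
            field_simp
          exact_mod_cast h3
        refine rcol_move (B := B) q.den_pos (by
          intro h0
          rw [Rat.num_eq_zero] at h0
          exact hq0.ne' h0) ?_ (by omega) (hx N) hy h2 (hyc.trans (hj N).symm)
        intro h3
        apply hS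
        rw [hq, hqr, h3]
        push_cast
        exact div_self hden
      · obtain ⟨y, hy, hys, hyc⟩ := hs ν hν
        exact ⟨y, hys⟩
    · obtain ⟨x, hx, j, hj, hs⟩ := h Unit (fun _ => ())
      refine ⟨x, hx, ?_, fun ν hν => ?_⟩
      · intro N
        by_contra hcon
        push Not at hcon
        obtain ⟨y, hy, hys, hyc⟩ := hs (fun i => N + i) (fun i j hij => by
          have : (i : ℕ) < j := hij
          simp only
          omega)
        rw [hev x N hcon] at hys
        apply hrat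
        have hxN : (0 : ℝ) < x N := by exact_mod_cast hx N
        refine ⟨(y : ℚ) / x N, ?_, ?_⟩
        · have := hx N
          positivity
        · push_cast
          rw [eq_div_iff hxN.ne']
          exact hys
      · obtain ⟨y, hy, hys, hyc⟩ := hs ν hν
        exact ⟨y, hys⟩
  obtain ⟨x, hx, hnc, hs⟩ := h1
  intro i
  obtain ⟨n, hn, hne⟩ := hnc i
  -- two index sequences which differ at the place `i` only
  set ν1 : Fin k → ℕ := fun l => if l < i then (l : ℕ) else if l = i then (i : ℕ) else n + l with hν1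
  set ν2 : Fin k → ℕ := fun l => if l < i then (l : ℕ) else if l = i then n else n + l with hν2
  have hn' : (i : ℕ) ≤ n := hn
  have hmono : ∀ m : ℕ, (i : ℕ) ≤ m → m ≤ n →
      StrictMono (fun l : Fin k => if l < i then (l : ℕ) else if l = i then m else n + l) := by
    intro m hm1 hm2 l l' hll
    have hll' : (l : ℕ) < l' := hll
    simp only [Fin.lt_def, Fin.ext_iff]
    split_ifs <;> omega
  obtain ⟨y1, hy1⟩ := hs ν1 (hmono i le_rfl hn')
  obtain ⟨y2, hy2⟩ := hs ν2 (hmono n hn' le_rfl)
  have hdiff : a i * ((x n : ℝ) - x i) = (y2 : ℝ) - y1 := by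
    rw [← hy1, ← hy2, ← Finset.sum_sub_distrib]
    rw [Finset.sum_eq_single_of_mem i (Finset.mem_univ i)]
    · simp only [hν1, hν2, lt_irrefl, if_false, if_true]
      ring
    · intro l _ hl
      simp only [hν1, hν2, if_neg hl]
      ring
  have hxne : (x n : ℝ) - x i ≠ 0 := by
    rw [sub_ne_zero]
    exact_mod_cast hne
  refine ⟨((y2 : ℚ) - y1) / ((x n : ℚ) - x i), ?_⟩
  push_cast
  rw [eq_div_iff hxne]
  exact hdiff

/-- common denominator -/
theorem exists_den {k : ℕ} (q : Fin k → ℚ) : ∃ (D : ℕ) (b : Fin k → ℤ), 0 < D ∧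
    ∀ i, (D : ℝ) * (q i : ℝ) = b i := by
  classical
  refine ⟨∏ i, (q i).den, fun i => (q i).num * ∏ j ∈ Finset.univ.erase i, ((q j).den : ℤ),
    Finset.prod_pos fun i _ => (q i).den_pos, ?_⟩
  intro i
  have hden : ((q i).den : ℝ) ≠ 0 := by exact_mod_cast (q i).den_pos.ne'
  have hqr : (q i : ℝ) = ((q i).num : ℝ) / (q i).den := by
    exact_mod_cast (Rat.num_div_den (q i)).symm
  rw [← Finset.mul_prod_erase Finset.univ _ (Finset.mem_univ i), hqr]
  push_cast
  field_simp

theorem real_char {k : ℕ} (a : Fin k → ℝ) (ha : ∀ i, a i ≠ 0) :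
    RIPR a ↔ (∑ i, a i = 1 ∨ ((∀ i, ∃ q : ℚ, a i = q) ∧
      ∃ h : 0 < k, a ⟨k - 1, Nat.sub_lt h one_pos⟩ = 1 ∧ (∑ i, a i = 0 ∨ ∀ i, a i = 1))) := by
  -- the rational case
  have hfrac : (∀ i, ∃ q : ℚ, a i = q) → (RIPR a ↔ (∑ i, a i = 1 ∨
      ∃ h : 0 < k, a ⟨k - 1, Nat.sub_lt h one_pos⟩ = 1 ∧ (∑ i, a i = 0 ∨ ∀ i, a i = 1))) := by
    intro hq
    choose q hq using hq
    obtain ⟨D, b, hD, hb⟩ := exists_den q
    have hDr : (D : ℝ) ≠ 0 := by exact_mod_cast hD.ne'
    have hab : ∀ i, (D : ℝ) * a i = b i := fun i => by rw [hq i]; exact hb i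
    have hb0 : ∀ i, b i ≠ 0 := by
      intro i h
      have h1 := hab i
      rw [h] at h1
      simp only [Int.cast_zero, mul_eq_zero] at h1
      rcases h1 with h1 | h1
      · exact hDr h1
      · exact ha i h1
    have hone : ∀ i, b i = D ↔ a i = 1 := by
      intro i
      constructor
      · intro h
        have h1 := hab i
        rw [h] at h1
        push_cast at h1
        exact mul_left_cancel₀ hDr (h1.trans (mul_one _).symm)
      · intro h
        have h1 := hab i
        rw [h, mul_one] at h1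
        exact_mod_cast h1.symm
    have hsum : ((∑ i, b i : ℤ) : ℝ) = D * ∑ i, a i := by
      push_cast
      rw [Finset.mul_sum]
      exact Finset.sum_congr rfl fun i _ => (hab i).symm
    have hs1 : ∑ i, b i = D ↔ ∑ i, a i = 1 := by
      constructor
      · intro h
        rw [h] at hsum
        push_cast at hsum
        exact mul_left_cancel₀ hDr (hsum.symm.trans (mul_one _).symm)
      · intro h
        rw [h, mul_one] at hsum
        exact_mod_cast hsum
    have hs0 : ∑ i, b i = 0 ↔ ∑ i, a i = 0 := by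
      constructor
      · intro h
        rw [h, Int.cast_zero, eq_comm, mul_eq_zero] at hsum
        exact hsum.resolve_left hDr
      · intro h
        rw [h, mul_zero] at hsum
        exact_mod_cast hsum
    rw [ripr_iff_qipr a D hD b hab, char_frac b hb0 D hD, hs1, hs0]
    simp only [hone]
  constructor
  · intro h
    by_cases hS : ∑ i, a i = 1
    · exact Or.inl hS
    · have hq := rational_of a h hS
      exact Or.inr ⟨hq, ((hfrac hq).1 h).resolve_left hS⟩
  · rintro (h | ⟨hq, h⟩)
    · intro κ _ c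
      refine ⟨fun _ => 1, fun _ => one_pos, c 1, fun _ => rfl, fun ν _ => ⟨1, one_pos, ?_, rfl⟩⟩
      simpa using h
    · exact (hfrac hq).2 (Or.inr h)

end Pool.Agent.Y339.IPR
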